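import Mathlib
import Pool.Agent.TH409.FB.Luc

set_option autoImplicit false

/-!
# Sparse integral points on hyperelliptic curves: algebraic bases and Lucas sequences

All curves `y ^ 2 = f(x)`, `f` an integral polynomial of degree `d ≥ 3` without repeated roots whose
coefficients have absolute value at most `M`, and all integral points `(x, y)`.

1. Let `K` be a number field, `t ∈ K`, and suppose that for some `z ≠ 0` in `K` the numbers
   `z`, `z x`, `z y` are combinations of the same `r` powers of `t` with coefficients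
   `v j 0`, `v j 1`, `v j 2` in `K`. Then
   `h(x) ≤ (1 + 8 (4 d) ^ r) (d h(v) + log ((d + 2) M r ^ d))`
   with the absolute height `h(v)` of the vector of all coefficients. Nothing depends on `K`, `t`
   and the exponents.
2. Let `a`, `b` be integers, `b = ± 1`, `a ^ 2 ≠ 4 b`, and let `x` and `y` be combinations of (at
   most) `r` terms of the Lucas sequence `U(a, b)` with integral coefficients of absolute value at
   most `B`, for instance sums of `r` Fibonacci numbers. Then
   `max |x| 1 ≤ ((d + 2) M ((4 r + 2) B) ^ d) ^ (1 + 8 (4 d) ^ (4 r + 2))`,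
   a bound that does not depend on `a`, `b` and the places of the terms.
-/

namespace Pool.Agent.Results.MP_d88658_nt.LucasSums

open Pool.Agent.TH409.SH Pool.Agent.TH409.FB

theorem result (d : ℕ) (hd : 3 ≤ d) (f : Polynomial ℤ) (hf : f.natDegree = d)
    (hs : (f.map (Int.castRingHom ℚ)).Separable) (M : ℝ) (hM : 1 ≤ M)
    (hfM : ∀ i, |(f.coeff i : ℝ)| ≤ M) (x y : ℤ) (hxy : y ^ 2 = f.eval x) :
    (∀ (K : Type) [Field K] [NumberField K] (r : ℕ) (t : K) (l : Fin r → ℕ)
      (v : Fin r → Fin 3 → K) (z : K), z ≠ 0 → z = ∑ j, t ^ (l j) * v j 0 →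
      z * x = ∑ j, t ^ (l j) * v j 1 → z * y = ∑ j, t ^ (l j) * v j 2 →
      Real.log (max |(x : ℝ)| 1) ≤ (1 + 8 * (4 * d) ^ r) *
        (d * ah K (fun q : Fin r × Fin 3 => v q.1 q.2) + Real.log ((d + 2) * M * r ^ d))) ∧
    ∀ (a b : ℤ), (b = 1 ∨ b = -1) → a ^ 2 ≠ 4 * b → ∀ (r : ℕ) (B : ℝ), 1 ≤ B →
      ∀ (c c' : Fin r → ℤ), (∀ j, |(c j : ℝ)| ≤ B) → (∀ j, |(c' j : ℝ)| ≤ B) →
      ∀ (m m' : Fin r → ℕ), x = ∑ j, c j * luc a b (m j) → y = ∑ j, c' j * luc a b (m' j) →
      max |(x : ℝ)| 1 ≤ ((d + 2) * M * ((4 * r + 2) * B) ^ d) ^ (1 + 8 * (4 * d) ^ (4 * r + 2)) := by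
  subst hf
  refine ⟨?_, ?_⟩
  · intro K _ _ r t l v z hz h0 h1 h2
    rcases Nat.eq_zero_or_pos r with rfl | hr
    · simp at h0
      exact absurd h0 hz
    · exact hyp_log K f hs hd M hM hfM hr t l v x y hxy z hz h0 h1 h2
  · intro a b hb hab r B hB c c' hc hc' m m' hx hy
    exact luc_main f hs hd M hM hfM a b hb hab r B hB c c' hc hc' m m' x y hxy hx hy

end Pool.Agent.Results.MP_d88658_nt.LucasSums
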