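import Mathlib
import Pool.Agent.TH551.SU.Sui
import Pool.Agent.TH551.SU.CS
import Pool.Agent.TH551.SU.WT
import Pool.Agent.TH551.HE.Rat
import Pool.Agent.TH551.HE.App

/-!
# MP_d88658_nt: the uniform height bound for points that are short sums of S-units

Let `d ≥ 3`, `r` and a finitely generated group `Γ` of rational numbers (for instance all `S`-units
for a finite set `S` of primes) be given. There is a constant `C` such that for EVERY integral
polynomial `f` of degree `d` without repeated roots, every rational point `(x, y)` of the curve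
`y ^ 2 = f x` whose coordinates are sums of at most `r` elements of `Γ` with integral coefficients,

  `x = ∑ a j * u j`, `y = ∑ b j * u j`, `u j` in `Γ`, `a j`, `b j` integers,

satisfies `h(x) ≤ C (1 + log M)`, where `M` is the largest of the absolute values of the
coefficients of `f`, the `a j` and the `b j`. So the height of these points is bounded linearly by
the height of `f`, uniformly in `f`, as the conjecture of Hall, Lang and Vojta predicts for all
integral points.

The proof: the uniform theorem on short sums of `S`-units on projective varieties (from the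
`S`-adic subspace theorem in an ultrapower of `ℚ`, see `Pool.Agent.TH551.SU.Uni`) and the fact that
hyperelliptic curves of degree at least 3 have no rational parametrisation.
-/

set_option autoImplicit false

namespace Pool.Agent.Results.MP_d88658_nt.SUnitSumsUniform

theorem result (d r : ℕ) (hd : 3 ≤ d) (Γ : Subgroup ℚˣ) (hΓ : Γ.FG) :
    ∃ C : ℝ, ∀ f : Polynomial ℤ, f.natDegree = d → (f.map (Int.castRingHom ℚ)).Separable →
      ∀ M : ℝ, 1 ≤ M → (∀ i, |(f.coeff i : ℝ)| ≤ M) →
      ∀ (u : Fin r → Γ) (a b : Fin r → ℤ), (∀ j, |(a j : ℝ)| ≤ M) → (∀ j, |(b j : ℝ)| ≤ M) →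
      ∀ x y : ℚ, x = ∑ j, ((u j : ℚˣ) : ℚ) * a j → y = ∑ j, ((u j : ℚˣ) : ℚ) * b j →
        y ^ 2 = (f.map (Int.castRingHom ℚ)).eval x →
        Real.log (max |(x.num : ℝ)| (x.den : ℝ)) ≤ C * (1 + Real.log M) :=
  Pool.Agent.TH551.HE.app
    (Pool.Agent.TH551.SU.Uni.uni (Pool.Agent.TH551.SU.CS.cs Pool.Agent.TH551.SU.SUI.sui)
      Pool.Agent.TH551.SU.WT.wt)
    (fun f hf hd P Q Y hQ h => Pool.Agent.TH551.HE.no_param ℚ f hf hd P Q Y hQ h) d r hd Γ hΓ

end Pool.Agent.Results.MP_d88658_nt.SUnitSumsUniform
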