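import Mathlib
import Pool.Agent.TH419.HX.Hyp
import Pool.Agent.TH419.HX.HypY2

/-!
# MP_d88658_nt: the uniform height bound for all integral points with one sparse coordinate

Let `S` be a finite set of primes. An integer `z` is called sparse here if
`z = a 0 * u 0 + ... + a k * u k` with positive integers `u i` all of whose prime factors are in
`S` and integers `a i` of absolute value at most `M`, `a 0 ≠ 0`, and if the first term dominates:
`u i ≤ (u 0) ^ (1 - η)` for `i ≠ 0`. For instance, in an arbitrary fixed base: a leading block of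
bounded length, a proportional gap, and then boundedly many further nonzero digits or bounded
blocks of digits, in arbitrary positions.

For all `d ≥ 3`, `S`, `k`, `H` and `η > 0` there is a constant `C` such that for EVERY integral
polynomial `f` of degree `d` without repeated roots and every integral point `(x, y)` of
`y ^ 2 = f x` with `x` sparse (and `y` ARBITRARY) or `y` sparse (and `x` ARBITRARY),

  `h(x) ≤ C (1 + log M)`,

where `M` bounds the coefficients of `f` and the integers `a i`. The only further condition is on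
the leading coefficients, which must be of the form `e * h ^ 2` (`e * h ^ d`) with `|e| ≤ H`:
`f.leadingCoeff * a 0 ^ d = e * h ^ 2`, respectively `f.leadingCoeff ^ (d - 1) * a 0 ^ 2 = e * h ^ d`
(no condition if `f` is monic and `a 0` bounded).

The proof: the square root of `f x` (the `d`-th root of `d ^ d c ^ (d - 1) y ^ 2`, which is close to
`d c x + f_{d-1}`) is expanded at the dominating term; the `S`-adic subspace theorem with moving
coefficients shows that a small multiple of the other coordinate is a sum of boundedly many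
`S`-units as well; then the uniform theorem for points whose coordinates are sums of `S`-units
(`Pool.Agent.TH551.HE`) applies.
-/

set_option autoImplicit false

open Polynomial

namespace Pool.Agent.Results.MP_d88658_nt.SparseCoordinate

/-- `z` is the sum of the `a i * u i`, where the `u i` are positive integers with all prime factors
in `S`, the first one dominates, and the `a i` are integers of absolute value at most `M` -/
def Sparse (S : Finset ℕ) (k : ℕ) (η M : ℝ) (u : Fin (k + 1) → ℕ) (a : Fin (k + 1) → ℤ)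
    (z : ℤ) : Prop :=
  (∀ i, u i ≠ 0 ∧ (u i).primeFactors ⊆ S) ∧
  (∀ i, i ≠ 0 → (u i : ℝ) ≤ (u 0 : ℝ) ^ (1 - η)) ∧ a 0 ≠ 0 ∧ (∀ i, |(a i : ℝ)| ≤ M) ∧
  z = ∑ i, a i * (u i : ℤ)

theorem result (d k H : ℕ) (hd : 3 ≤ d) (S : Finset ℕ) (η : ℝ) (hη : 0 < η) :
    ∃ C : ℝ, ∀ f : ℤ[X], f.natDegree = d → (f.map (Int.castRingHom ℚ)).Separable →
      ∀ M : ℝ, 1 ≤ M → (∀ i, |(f.coeff i : ℝ)| ≤ M) →
      ∀ x y : ℤ, y ^ 2 = f.eval x →
      (∃ (u : Fin (k + 1) → ℕ) (a : Fin (k + 1) → ℤ),
        (Sparse S k η M u a x ∧ ∃ e h : ℤ, f.leadingCoeff * a 0 ^ d = e * h ^ 2 ∧ |e| ≤ H) ∨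
        (Sparse S k η M u a y ∧
          ∃ e h : ℤ, f.leadingCoeff ^ (d - 1) * a 0 ^ 2 = e * h ^ d ∧ |e| ≤ H)) →
      Real.log (max |(x : ℝ)| 1) ≤ C * (1 + Real.log M) := by
  have hSp : ∀ p ∈ S.filter Nat.Prime, p.Prime := fun p hp => (Finset.mem_filter.1 hp).2
  obtain ⟨n, rfl⟩ : ∃ n, d = n + 2 := ⟨d - 2, by omega⟩
  obtain ⟨C1, h1⟩ := Pool.Agent.TH419.HX.hyp (n + 2) k H hd (S.filter Nat.Prime) hSp η hη
  obtain ⟨C2, h2⟩ := Pool.Agent.TH419.HX.hypY n k H (by omega) (S.filter Nat.Prime) hSp η hη
  have hsm : ∀ (u : Fin (k + 1) → ℕ), (∀ i, u i ≠ 0 ∧ (u i).primeFactors ⊆ S) →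
      ∀ i, Pool.Agent.TH419.WI.Smooth (S.filter Nat.Prime) (u i) := fun u hu i =>
    ⟨(hu i).1, fun p hp => Finset.mem_filter.2 ⟨(hu i).2 hp, Nat.prime_of_mem_primeFactors hp⟩⟩
  refine ⟨max C1 C2, ?_⟩
  intro f hfd hsep M hM hcoef x y hyx hor
  have hlog : 0 ≤ 1 + Real.log M := by
    have := Real.log_nonneg hM
    linarith
  obtain ⟨u, a, hor⟩ := hor
  rcases hor with ⟨⟨hu, hdom, ha0, haM, hx⟩, e, h, heh, heH⟩ |
    ⟨⟨hu, hdom, ha0, haM, hy⟩, e, h, heh, heH⟩
  · refine (h1 f hfd hsep M hM hcoef u a (hsm u hu) hdom ha0 haM e h heh heH x y hx hyx).trans ?_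
    exact mul_le_mul_of_nonneg_right (le_max_left _ _) hlog
  · refine (h2 f hfd hsep M hM hcoef u a (hsm u hu) hdom ha0 haM e h (by
      have h3 : n + 2 - 1 = n + 1 := by omega
      rw [h3] at heh
      exact heh) heH x y hy hyx).trans ?_
    exact mul_le_mul_of_nonneg_right (le_max_right _ _) hlog

end Pool.Agent.Results.MP_d88658_nt.SparseCoordinate
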