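import Mathlib
import Pool.Agent.TH539.HLDigits

set_option autoImplicit false

/-!
# The uniform height bound for sparse integral points on hyperelliptic curves, in any base

All curves `y ^ 2 = f(x)`, `f` an integral polynomial of degree `2 ≤ d` without repeated roots whose
coefficients have absolute value at most `M`.

1. Let `b ≥ 2` be any integer and let `q x` and `q y` be combinations of the same `r` powers of `b`
   with integral coefficients of absolute value at most `B`.  Then
   `max |x| |y| ≤ ((d + 3) (r B q) ^ d M) ^ (5 (4 d) ^ r)`.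
2. In particular this holds (with `B = b`, `q = b ^ k - 1`) if `r` is the number of places at which
   the base `b` digits of `|x|` and `b ^ k |x|`, and of `|y|` and `b ^ k |y|`, differ; so `x` and `y`
   may be long words composed of few periodic blocks whose periods divide `k`.

So `h(x) ≤ C₁ h(f) + C₂` with `C₁ = 5 (4 d) ^ r` and `C₂ = C₁ log ((d + 3) (r B q) ^ d)`.
-/

namespace Pool.Agent.Results.MP_d88658_nt.SparsePointsAnyBase

/-- `u` and `v` are combinations of the same `r` powers of `b` with integral coefficients of absolute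
value at most `B` -/
def Sparse (b r B : ℕ) (u v : ℤ) : Prop :=
  ∃ (e : Fin r → ℕ) (c c' : Fin r → ℤ), (∀ j, |c j| ≤ B) ∧ (∀ j, |c' j| ≤ B) ∧
    u = ∑ j, c j * (b : ℤ) ^ (e j) ∧ v = ∑ j, c' j * (b : ℤ) ^ (e j)

/-- the number of places at which the base `b` digits of `|x|` and of `b ^ k * |x|` differ -/
noncomputable def changes (b k : ℕ) (x : ℤ) : ℕ :=
  Set.ncard {i : ℕ | x.natAbs / b ^ i % b ≠ b ^ k * x.natAbs / b ^ i % b}

theorem result (d : ℕ) (hd : 2 ≤ d) (f : Polynomial ℤ) (hf : f.natDegree = d)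
    (hs : (f.map (Int.castRingHom ℚ)).Separable) (M : ℕ) (hM : ∀ i, |f.coeff i| ≤ (M : ℤ)) :
    (∀ b r B q : ℕ, 2 ≤ b → 1 ≤ q → ∀ x y : ℤ, y ^ 2 = f.eval x → Sparse b r B (q * x) (q * y) →
      max |x| |y| ≤ ((d + 3) * (r * B * q) ^ d * M) ^ (5 * (4 * d) ^ r)) ∧
    ∀ b k r : ℕ, 2 ≤ b → 1 ≤ k → ∀ x y : ℤ, y ^ 2 = f.eval x →
      changes b k x + changes b k y = r →
      max |x| |y| ≤ ((d + 3) * (r * b ^ (k + 1)) ^ d * M) ^ (5 * (4 * d) ^ r) := by
  constructor
  · intro b r B q hb hq x y hE hS
    have h := Pool.Agent.TH539.HLSparse.hyper_bound f d (by omega) hf.le hs M hM b r B q hb hq x y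
      hS hE
    push_cast at h
    exact h
  · intro b k r hb hk x y hE hr
    have hbk : 2 ≤ b ^ k := le_trans hb (Nat.le_self_pow (by omega) b)
    have hS := Pool.Agent.TH539.HLSparse.sparsePair_changes b k hb x y
    have hr' : Pool.Agent.TH539.HLSparse.digitChanges b k x +
        Pool.Agent.TH539.HLSparse.digitChanges b k y = r := hr
    rw [hr'] at hS
    have h := Pool.Agent.TH539.HLSparse.hyper_bound f d (by omega) hf.le hs M hM b r b (b ^ k - 1)
      hb (by omega) x y hS hE
    refine h.trans ?_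
    have h2 : r * b * (b ^ k - 1) ≤ r * b ^ (k + 1) := by
      calc r * b * (b ^ k - 1) ≤ r * b * b ^ k := Nat.mul_le_mul_left _ (Nat.sub_le _ _)
        _ = r * b ^ (k + 1) := by ring
    have h3 : ((d + 3) * (r * b * (b ^ k - 1)) ^ d * M) ^ (5 * (4 * d) ^ r) ≤
        ((d + 3) * (r * b ^ (k + 1)) ^ d * M) ^ (5 * (4 * d) ^ r) := by
      gcongr
    exact_mod_cast h3

end Pool.Agent.Results.MP_d88658_nt.SparsePointsAnyBase
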